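import Pool.Agent.Helper6H.C6

set_option autoImplicit false

namespace Pool.Agent.Results.MP_7685df_co.AlmostAllRoots

open Pool.Agent.Helper6H

/-- Almost all matroids have all their reliability roots in the closed unit disk. -/
theorem result : Filter.Tendsto (fun m : ℕ =>
    (Nat.card {M : Matroid (Fin m) // M.E = Set.univ ∧ ∀ q : ℂ, RelAt M q = 0 → ‖q‖ ≤ 1} : ℝ) /
      (Nat.card {M : Matroid (Fin m) // M.E = Set.univ} : ℝ)) Filter.atTop (nhds 1) := by
  apply almost_all_tendsto (fun _ M => ∀ q : ℂ, RelAt M q = 0 → ‖q‖ ≤ 1)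
  filter_upwards [Filter.eventually_ge_atTop 16] with m hm M _ hg
  exact nondec_roots M (good_nondec hm M hg)

end Pool.Agent.Results.MP_7685df_co.AlmostAllRoots
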